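import Pool.Agent.W495.TA.Stms

/-!
# Project TA, part GEN: structure of relations
-/

set_option autoImplicit false
set_option linter.unusedSectionVars false
set_option linter.unusedVariables false

namespace Pool.Agent.W29.TA

open Finset Pool.Agent.W495.TA

variable {G X : Type} [Group G] [Fintype G] [MulAction G X] {c : G}

lemma nf_smul (D : Subgroup G) (ε : X → ℤ) (g : G) (x : X) (h : G) :
    nf D ε (g • x) h = nf D ε x (h * g) := by
  unfold nf
  simp only [mul_smul]

lemma nf_c (hS : Setting G X c) {D : Subgroup G} {ε : X → ℤ} (hε : IsSign c ε) (x : X) :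
    nf D ε (c • x) = - nf D ε x := by
  funext h
  rw [Pi.neg_apply]
  unfold nf
  rw [← sum_neg_distrib]
  apply sum_congr rfl
  intro d _
  have h1 : d • h • c • x = c • d • h • x := by
    rw [smul_smul, smul_smul, smul_smul, smul_smul]
    congr 1
    rw [mul_assoc c d h, hS.comm]
  rw [h1, hε.odd]
  split_ifs <;> simp

section

variable {n : X → G → ℤ}

lemma norm_smul (hn : ∀ x g h, n (g • x) h = n x (h * g)) (g : G) (x : X) :
    ∑ h, n (g • x) h ^ 2 = ∑ h, n x h ^ 2 := by
  simp only [hn]
  exact Equiv.sum_comp (Equiv.mulRight g) (fun h => n x h ^ 2)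

lemma par {f1 f2 : G → ℚ} {A1 A2 β : ℚ} (h1 : ∑ h, f1 h ^ 2 = β) (h2 : ∑ h, f2 h ^ 2 = β)
    (hβ : β ≠ 0) (hA : A1 ≠ 0) (h : ∀ g, A1 * f1 g + A2 * f2 g = 0) : f1 = f2 ∨ f1 = -f2 := by
  have e1 : A1 ^ 2 * β = A2 ^ 2 * β := by
    rw [← h1]
    nth_rewrite 2 [h1]
    rw [← h2, mul_sum, mul_sum]
    apply sum_congr rfl
    intro g _
    have := h g
    have e : A1 * f1 g = -(A2 * f2 g) := by linarith
    calc A1 ^ 2 * f1 g ^ 2 = (A1 * f1 g) ^ 2 := by ring
      _ = (-(A2 * f2 g)) ^ 2 := by rw [e]
      _ = A2 ^ 2 * f2 g ^ 2 := by ring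
  have e2 : A1 ^ 2 = A2 ^ 2 := mul_right_cancel₀ hβ e1
  rcases sq_eq_sq_iff_eq_or_eq_neg.1 e2 with e | e
  · right
    funext g
    have := h g
    rw [← e, ← mul_add] at this
    rcases mul_eq_zero.1 this with h' | h'
    · exact absurd h' hA
    · rw [Pi.neg_apply]; linarith
  · left
    funext g
    have := h g
    have e' : A2 = -A1 := by linarith
    rw [e'] at this
    have h3 : A1 * (f1 g - f2 g) = 0 := by linarith
    rcases mul_eq_zero.1 h3 with h' | h'
    · exact absurd h' hA
    · linarith

lemma parZ {f1 f2 : G → ℤ} {A1 A2 : ℤ} (h1 : ∑ h, f1 h ^ 2 = ∑ h, f2 h ^ 2)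
    (hβ : f1 ≠ 0) (hA : A1 ≠ 0) (h : ∀ g, A1 * f1 g + A2 * f2 g = 0) : f1 = f2 ∨ f1 = -f2 := by
  have hpos : ∑ h, f1 h ^ 2 ≠ 0 := by
    intro h0
    apply hβ
    funext g
    have := (sum_eq_zero_iff_of_nonneg (fun g _ => sq_nonneg (f1 g))).1 h0 g (mem_univ g)
    exact pow_eq_zero_iff (by norm_num) |>.1 this
  have key := par (f1 := fun g => (f1 g : ℚ)) (f2 := fun g => (f2 g : ℚ)) (A1 := (A1 : ℚ))
    (A2 := (A2 : ℚ)) (β := ((∑ h, f1 h ^ 2 : ℤ) : ℚ)) (by push_cast; rfl)
    (by rw [h1]; push_cast; rfl) (by exact_mod_cast hpos) (by exact_mod_cast hA)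
    (fun g => by exact_mod_cast h g)
  rcases key with k | k
  · left
    funext g
    have := congrFun k g
    exact_mod_cast this
  · right
    funext g
    have := congrFun k g
    simp only [Pi.neg_apply] at this ⊢
    exact_mod_cast this

variable [Fintype X] {a : X → ℤ}

open Classical in
/-- the sum of the values over a class -/
noncomputable def AA (n : X → G → ℤ) (a : X → ℤ) (f : G → ℤ) : ℤ :=
  ∑ x, if n x = f then a x else 0

lemma AA_neg (hc : ∀ x, n (c • x) = - n x) (hodd : ∀ x, a (c • x) = - a x) (f : G → ℤ) :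
    AA n a (-f) = - AA n a f := by
  unfold AA
  rw [← Equiv.sum_comp (MulAction.toPerm c) (fun x => if n x = -f then a x else 0),
    ← sum_neg_distrib]
  apply sum_congr rfl
  intro x _
  simp only [MulAction.toPerm_apply, hc, hodd, neg_inj]
  split_ifs <;> simp

lemma AA_ne (hcl : ∀ x y, n x = n y → a x = a y) {x0 : X} (h0 : a x0 ≠ 0) :
    AA n a (n x0) ≠ 0 := by
  classical
  unfold AA
  have h1 : ∑ x, (if n x = n x0 then a x else 0) = ∑ x, (if n x = n x0 then a x0 else 0) := by
    apply sum_congr rfl
    intro x _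
    split_ifs with h
    · exact hcl _ _ h
    · rfl
  have h2 : ∑ x, (if n x = n x0 then a x0 else 0) =
      ((univ.filter (fun x => n x = n x0)).card : ℤ) * a x0 := by
    rw [← sum_filter, sum_const, nsmul_eq_mul]
  intro h
  have h3 : ((univ.filter (fun x => n x = n x0)).card : ℤ) * a x0 = 0 := by
    rw [← h2, ← h1]
    convert h
  rcases mul_eq_zero.1 h3 with h4 | h4
  · have h5 : (univ.filter (fun x => n x = n x0)).card = 0 := by exact_mod_cast h4
    rw [card_eq_zero] at h5
    have : x0 ∈ univ.filter (fun x => n x = n x0) := by simp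
    rw [h5] at this
    exact absurd this (notMem_empty _)
  · exact h0 h4

/-- no vector is zero -/
lemma n_ne (hn : ∀ x g h, n (g • x) h = n x (h * g)) (hc : ∀ x, n (c • x) = - n x)
    (ht : ∀ x y : X, ∃ g : G, g • x = y) (hodd : ∀ x, a (c • x) = - a x)
    (hcl : ∀ x y, n x = n y → a x = a y) (ha : a ≠ 0) (x : X) : n x ≠ 0 := by
  intro h0
  apply ha
  funext y
  have hy : ∀ y, n y = 0 := by
    intro y
    obtain ⟨g, rfl⟩ := ht x y
    funext h
    rw [hn, h0]
    rfl
  have h1 : a (c • y) = a y := hcl _ _ (by rw [hy, hy])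
  rw [hodd] at h1
  simp only [Pi.zero_apply]
  omega

open Classical in
/-- few vectors: the relation is trivial -/
lemma few (hn : ∀ x g h, n (g • x) h = n x (h * g)) (hc : ∀ x, n (c • x) = - n x)
    (ht : ∀ x y : X, ∃ g : G, g • x = y) (hodd : ∀ x, a (c • x) = - a x)
    (hcl : ∀ x y, n x = n y → a x = a y) (hrel : ∀ g, ∑ x, a x * n x g = 0)
    (hcard : (univ.image n).card ≤ 5) : a = 0 := by
  by_contra ha
  have hne := n_ne hn hc ht hodd hcl ha
  obtain ⟨x0, hx0⟩ : ∃ x0, a x0 ≠ 0 := by
    by_contra h
    push Not at h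
    exact ha (funext h)
  have hself : ∀ x, n x ≠ - n x := by
    intro x h
    apply hne x
    funext g
    have := congrFun h g
    simp only [Pi.neg_apply, Pi.zero_apply] at this ⊢
    omega
  have hnorm : ∀ x y, ∑ h, n x h ^ 2 = ∑ h, n y h ^ 2 := by
    intro x y
    obtain ⟨g, rfl⟩ := ht x y
    rw [norm_smul hn]
  by_cases h1 : ∀ x, n x = n x0 ∨ n x = - n x0
  · -- one pair
    have key : ∀ g, 2 * (AA n a (n x0) * n x0 g) = 0 := by
      intro g
      have e1 : ∑ x, a x * n x g = AA n a (n x0) * n x0 g + AA n a (-(n x0)) * (-(n x0 g)) := by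
        unfold AA
        rw [sum_mul, sum_mul, ← sum_add_distrib]
        apply sum_congr rfl
        intro x _
        rcases h1 x with h | h
        · rw [if_pos h, if_neg (by rw [h]; exact hself x0), h]; ring
        · rw [if_neg (by rw [h]; exact (hself x0).symm), if_pos h, h, Pi.neg_apply]; ring
      rw [hrel, AA_neg hc hodd] at e1
      linarith
    apply hne x0
    funext g
    have := key g
    have h3 := AA_ne hcl hx0
    have h4 : AA n a (n x0) * n x0 g = 0 := by omega
    rcases mul_eq_zero.1 h4 with h | h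
    · exact absurd h h3
    · exact h
  · push Not at h1
    obtain ⟨x1, h11, h12⟩ := h1
    by_cases h2 : ∀ x, (n x = n x0 ∨ n x = - n x0) ∨ (n x = n x1 ∨ n x = - n x1)
    · have key : ∀ g, AA n a (n x0) * n x0 g + AA n a (n x1) * n x1 g = 0 := by
        intro g
        have e1 : ∑ x, a x * n x g = (AA n a (n x0) * n x0 g + AA n a (-(n x0)) * (-(n x0 g))) +
            (AA n a (n x1) * n x1 g + AA n a (-(n x1)) * (-(n x1 g))) := by
          unfold AA
          rw [sum_mul, sum_mul, sum_mul, sum_mul, ← sum_add_distrib, ← sum_add_distrib,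
            ← sum_add_distrib]
          apply sum_congr rfl
          intro x _
          have k1 : n x1 ≠ n x0 := h11
          have k2 : n x1 ≠ - n x0 := h12
          have k3 : n x0 ≠ - n x1 := fun h => k2 (by rw [h, neg_neg])
          have k4 : - n x0 ≠ - n x1 := fun h => k1 (neg_injective h).symm
          have k5 : - n x0 ≠ n x1 := fun h => k2 h.symm
          rcases h2 x with (h | h) | (h | h)
          · rw [if_pos h, if_neg (by rw [h]; exact hself x0), if_neg (by rw [h]; exact k1.symm),
              if_neg (by rw [h]; exact k3), h]; ring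
          · rw [if_neg (by rw [h]; exact (hself x0).symm), if_pos h,
              if_neg (by rw [h]; exact k5), if_neg (by rw [h]; exact k4), h, Pi.neg_apply]; ring
          · rw [if_neg (by rw [h]; exact k1), if_neg (by rw [h]; exact k2), if_pos h,
              if_neg (by rw [h]; exact hself x1), h]; ring
          · rw [if_neg (by rw [h]; exact k3.symm), if_neg (by rw [h]; exact k4.symm),
              if_neg (by rw [h]; exact (hself x1).symm), if_pos h, h, Pi.neg_apply]; ring
        rw [hrel, AA_neg hc hodd, AA_neg hc hodd] at e1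
        linarith
      rcases parZ (hnorm x0 x1) (hne x0) (AA_ne hcl hx0) key with h | h
      · exact h11 h.symm
      · exact h12 (by rw [h, neg_neg])
    · push Not at h2
      obtain ⟨x2, ⟨h21, h22⟩, h23, h24⟩ := h2
      have hmem : ∀ x, n x ∈ univ.image n := fun x => mem_image_of_mem n (mem_univ x)
      have hmem' : ∀ x, - n x ∈ univ.image n := fun x => by rw [← hc]; exact hmem _
      have hsub : ({n x0, -n x0, n x1, -n x1, n x2, -n x2} : Finset (G → ℤ)) ⊆ univ.image n := by
        intro f hf
        simp only [mem_insert, mem_singleton] at hf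
        rcases hf with h | h | h | h | h | h <;> rw [h]
        · exact hmem _
        · exact hmem' _
        · exact hmem _
        · exact hmem' _
        · exact hmem _
        · exact hmem' _
      have h6 : ({n x0, -n x0, n x1, -n x1, n x2, -n x2} : Finset (G → ℤ)).card = 6 := by
        have nn : ∀ u v : G → ℤ, u ≠ -v → -u ≠ v := fun u v h h' => h (by rw [← h', neg_neg])
        have n2 : ∀ u v : G → ℤ, u ≠ v → -u ≠ -v := fun u v h h' => h (neg_injective h')
        have n3 : ∀ u v : G → ℤ, u ≠ -v → v ≠ -u := fun u v h h' => h (by rw [h', neg_neg])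
        rw [card_insert_of_notMem, card_insert_of_notMem, card_insert_of_notMem,
          card_insert_of_notMem, card_insert_of_notMem, card_singleton]
        · simp only [mem_singleton]
          exact hself x2
        · simp only [mem_insert, mem_singleton, not_or]
          exact ⟨nn _ _ (n3 _ _ h24), n2 _ _ h23.symm⟩
        · simp only [mem_insert, mem_singleton, not_or]
          exact ⟨hself x1, h23.symm, n3 _ _ h24⟩
        · simp only [mem_insert, mem_singleton, not_or]
          exact ⟨nn _ _ (n3 _ _ h12), n2 _ _ h11.symm, nn _ _ (n3 _ _ h22), n2 _ _ h21.symm⟩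
        · simp only [mem_insert, mem_singleton, not_or]
          exact ⟨hself x0, h11.symm, n3 _ _ h12, h21.symm, n3 _ _ h22⟩
      have := card_le_card hsub
      omega

/-- the span -/
def VV (n : X → G → ℤ) : Submodule ℚ (G → ℚ) :=
  Submodule.span ℚ (Set.range fun x : X => fun g : G => (n x g : ℚ))

open Classical in
lemma dim_two (hn : ∀ x g h, n (g • x) h = n x (h * g)) (hc : ∀ x, n (c • x) = - n x)
    (ht : ∀ x y : X, ∃ g : G, g • x = y) (hne : ∀ x, n x ≠ 0)
    (h6 : 3 ≤ (univ.image n).card) : 2 ≤ Module.finrank ℚ (VV n) := by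
  by_contra hlt
  push Not at hlt
  have h1 : Module.finrank ℚ (VV n) ≤ 1 := by omega
  rw [finrank_le_one_iff] at h1
  obtain ⟨v, hv⟩ := h1
  have hmem : ∀ x, (fun g : G => (n x g : ℚ)) ∈ VV n := fun x =>
    Submodule.subset_span ⟨x, rfl⟩
  have hex : ∀ x, ∃ r : ℚ, ∀ g, r * (v : G → ℚ) g = n x g := by
    intro x
    obtain ⟨r, hr⟩ := hv ⟨_, hmem x⟩
    refine ⟨r, fun g => ?_⟩
    have := congrFun (congrArg Subtype.val hr) g
    simpa using this
  have hnorm : ∀ x y, ∑ h, n x h ^ 2 = ∑ h, n y h ^ 2 := by
    intro x y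
    obtain ⟨g, rfl⟩ := ht x y
    rw [norm_smul hn]
  obtain ⟨f0, hf0⟩ : (univ.image n).Nonempty := card_pos.1 (by omega)
  obtain ⟨x0, -, rfl⟩ := mem_image.1 hf0
  obtain ⟨r0, hr0⟩ := hex x0
  have hr00 : r0 ≠ 0 := by
    intro h
    apply hne x0
    funext g
    have := hr0 g
    rw [h, zero_mul] at this
    exact_mod_cast this.symm
  have hpos : ∑ h, n x0 h ^ 2 ≠ 0 := by
    intro h0
    apply hne x0
    funext g
    have := (sum_eq_zero_iff_of_nonneg (fun g _ => sq_nonneg (n x0 g))).1 h0 g (mem_univ g)
    exact pow_eq_zero_iff (by norm_num) |>.1 this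
  have hall : ∀ x, n x = n x0 ∨ n x = - n x0 := by
    intro x
    obtain ⟨r, hr⟩ := hex x
    have key := par (f1 := fun g => (n x g : ℚ)) (f2 := fun g => (n x0 g : ℚ)) (A1 := r0)
      (A2 := -r) (β := ((∑ h, n x0 h ^ 2 : ℤ) : ℚ)) (by rw [hnorm x0 x]; push_cast; rfl)
      (by push_cast; rfl) (by exact_mod_cast hpos) hr00
      (fun g => by rw [← hr, ← hr0]; ring)
    rcases key with k | k
    · left
      funext g
      have := congrFun k g
      exact_mod_cast this
    · right
      funext g
      have := congrFun k g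
      simp only [Pi.neg_apply] at this ⊢
      exact_mod_cast this
  have hsub : univ.image n ⊆ {n x0, - n x0} := by
    intro f hf
    obtain ⟨x, -, rfl⟩ := mem_image.1 hf
    rw [mem_insert, mem_singleton]
    exact hall x
  have := (card_le_card hsub).trans (card_le_two)
  omega

open Classical in
/-- one-dimensional space of relations: the relation is semi-invariant -/
lemma core (hS : Setting G X c) {ε : X → ℤ} (hε : IsSign c ε)
    (hn : ∀ x g h, n (g • x) h = n x (h * g)) (hc : ∀ x, n (c • x) = - n x)
    (hodd : ∀ x, a (c • x) = - a x)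
    (hrel : ∀ g, ∑ x, a x * n x g = 0) (ha : a ≠ 0)
    (hV : Fintype.card X ≤ 2 * (Module.finrank ℚ (VV n) + 1)) : Semi G a := by
  set S := {x : X // ε x = 1} with hSdef
  have hcS : ∀ x, ε x ≠ 1 → ε (c • x) = 1 := by
    intro x hx
    rcases hε.sign x with h | h
    · exact absurd h hx
    · rw [hε.odd, h]; norm_num
  have hcS' : ∀ x, ε x = 1 → ε (c • x) ≠ 1 := by
    intro x hx
    rw [hε.odd, hx]; norm_num
  have hcc : ∀ x : X, c • c • x = x := by
    intro x
    rw [smul_smul, hS.sq, one_smul]
  have hcard : 2 * Fintype.card S = Fintype.card X := by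
    have h1 : Fintype.card S = (univ.filter (fun x => ε x = 1)).card := Fintype.card_subtype _
    have h2 : (univ.filter (fun x => ε x = 1)).card = (univ.filter (fun x => ¬ ε x = 1)).card := by
      apply card_bij (fun x _ => c • x)
      · intro x hx
        rw [mem_filter] at hx ⊢
        exact ⟨mem_univ _, hcS' x hx.2⟩
      · intro x _ y _ h
        have := congrArg (fun z => c • z) h
        simpa [hcc] using this
      · intro y hy
        rw [mem_filter] at hy
        exact ⟨c • y, by rw [mem_filter]; exact ⟨mem_univ _, hcS y hy.2⟩, hcc y⟩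
    have h3 := card_filter_add_card_filter_not (s := (univ : Finset X)) (fun x => ε x = 1)
    rw [card_univ] at h3
    omega
  -- splitting sums
  have hsplit : ∀ F : X → ℤ, (∀ x, F (c • x) = F x) → ∑ x, F x = 2 * ∑ x : S, F x := by
    intro F hF
    have h1 : ∑ x, F x = ∑ x ∈ univ.filter (fun x => ε x = 1), F x +
        ∑ x ∈ univ.filter (fun x => ¬ ε x = 1), F x := (sum_filter_add_sum_filter_not _ _ _).symm
    have h2 : ∑ x ∈ univ.filter (fun x => ε x = 1), F x =
        ∑ x ∈ univ.filter (fun x => ¬ ε x = 1), F x := by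
      apply sum_bij (fun x _ => c • x)
      · intro x hx
        rw [mem_filter] at hx ⊢
        exact ⟨mem_univ _, hcS' x hx.2⟩
      · intro x _ y _ h
        have := congrArg (fun z => c • z) h
        simpa [hcc] using this
      · intro y hy
        rw [mem_filter] at hy
        exact ⟨c • y, by rw [mem_filter]; exact ⟨mem_univ _, hcS y hy.2⟩, hcc y⟩
      · intro x _
        exact (hF x).symm
    have h3 : ∑ x ∈ univ.filter (fun x => ε x = 1), F x = ∑ x : S, F x := by
      exact Finset.sum_subtype (univ.filter (fun x => ε x = 1)) (by simp) F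
    rw [h1, ← h2, h3]; ring
  set L : (S → ℚ) →ₗ[ℚ] (G → ℚ) :=
    Fintype.linearCombination ℚ (fun x : S => fun g : G => (n x g : ℚ)) with hL
  have hLapp : ∀ (r : S → ℚ) (g : G), L r g = ∑ x : S, r x * (n x g : ℚ) := by
    intro r g
    rw [hL, Fintype.linearCombination_apply, Finset.sum_apply]
    rfl
  have hrange : LinearMap.range L = VV n := by
    rw [hL, Fintype.range_linearCombination]
    unfold VV
    apply le_antisymm
    · apply Submodule.span_mono
      rintro _ ⟨x, rfl⟩
      exact ⟨x.1, rfl⟩
    · rw [Submodule.span_le]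
      rintro _ ⟨x, rfl⟩
      by_cases hx : ε x = 1
      · exact Submodule.subset_span ⟨⟨x, hx⟩, rfl⟩
      · have h1 : (fun g : G => (n x g : ℚ)) = -(fun g : G => (n (c • x) g : ℚ)) := by
          funext g
          rw [hc]
          simp
        change (fun g : G => (n x g : ℚ)) ∈ Submodule.span ℚ _
        rw [h1]
        exact Submodule.neg_mem _ (Submodule.subset_span ⟨⟨c • x, hcS x hx⟩, rfl⟩)
  have hker : Module.finrank ℚ (LinearMap.ker L) ≤ 1 := by
    have h1 := LinearMap.finrank_range_add_finrank_ker L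
    rw [hrange, Module.finrank_fintype_fun_eq_card] at h1
    omega
  rw [finrank_le_one_iff] at hker
  obtain ⟨v, hv⟩ := hker
  -- odd relations give elements of the kernel
  have hmem : ∀ b : X → ℤ, (∀ x, b (c • x) = - b x) → (∀ g, ∑ x, b x * n x g = 0) →
      ∃ r : ℚ, ∀ x : S, r * (v : S → ℚ) x = b x := by
    intro b hb hbr
    have h1 : (fun x : S => (b x : ℚ)) ∈ LinearMap.ker L := by
      rw [LinearMap.mem_ker]
      funext g
      rw [hLapp]
      have h2 := hsplit (fun x => b x * n x g) (fun x => by rw [hb, hc, Pi.neg_apply]; ring)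
      rw [hbr g] at h2
      have h3 : ∑ x : S, b x * n x g = 0 := by omega
      have h4 : ((∑ x : S, b x * n x g : ℤ) : ℚ) = 0 := by rw [h3]; simp
      push_cast at h4
      simpa using h4
    obtain ⟨r, hr⟩ := hv ⟨_, h1⟩
    refine ⟨r, fun x => ?_⟩
    have := congrFun (congrArg Subtype.val hr) x
    simpa using this
  obtain ⟨r, hr⟩ := hmem a hodd hrel
  have hr0 : r ≠ 0 := by
    intro h
    apply ha
    have h1 : ∀ x : X, ε x = 1 → a x = 0 := by
      intro x hx
      have := hr ⟨x, hx⟩
      rw [h, zero_mul] at this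
      exact_mod_cast this.symm
    funext x
    by_cases hx : ε x = 1
    · exact h1 x hx
    · have := h1 (c • x) (hcS x hx)
      rw [hodd] at this
      simpa using this
  intro g
  obtain ⟨t, ht⟩ := hmem (fun x => a (g • x))
    (fun x => by
      have : g • c • x = c • g • x := by rw [smul_smul, smul_smul, hS.comm]
      rw [this, hodd])
    (fun h => by
      have h1 := hrel (h * g⁻¹)
      rw [← Equiv.sum_comp (MulAction.toPerm g) (fun x => a x * n x (h * g⁻¹))] at h1
      rw [← h1]
      apply sum_congr rfl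
      intro x _
      simp only [MulAction.toPerm_apply]
      rw [hn]
      simp)
  have hlam : ∀ x : X, (a (g • x) : ℚ) = (t / r) * a x := by
    have h1 : ∀ x : X, ε x = 1 → (a (g • x) : ℚ) = (t / r) * a x := by
      intro x hx
      have e1 := hr ⟨x, hx⟩
      have e2 := ht ⟨x, hx⟩
      simp only at e1 e2
      rw [← e1, ← e2]
      field_simp
    intro x
    by_cases hx : ε x = 1
    · exact h1 x hx
    · have h2 := h1 (c • x) (hcS x hx)
      have h3 : g • c • x = c • g • x := by rw [smul_smul, smul_smul, hS.comm]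
      rw [h3, hodd, hodd] at h2
      push_cast at h2
      linarith
  have hsq : ∑ x, (a (g • x) : ℚ) ^ 2 = ∑ x, (a x : ℚ) ^ 2 :=
    Equiv.sum_comp (MulAction.toPerm g) (fun x => (a x : ℚ) ^ 2)
  have hpos : ∑ x, (a x : ℚ) ^ 2 ≠ 0 := by
    intro h0
    apply ha
    funext x
    have := (sum_eq_zero_iff_of_nonneg (fun x _ => sq_nonneg (a x : ℚ))).1 h0 x (mem_univ x)
    have := pow_eq_zero_iff (by norm_num) |>.1 this
    exact_mod_cast this
  have hlam2 : (t / r) ^ 2 = 1 := by
    have h1 : (t / r) ^ 2 * ∑ x, (a x : ℚ) ^ 2 = 1 * ∑ x, (a x : ℚ) ^ 2 := by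
      rw [one_mul]
      nth_rewrite 2 [← hsq]
      rw [mul_sum]
      apply sum_congr rfl
      intro x _
      rw [hlam]; ring
    exact mul_right_cancel₀ hpos h1
  rcases (sq_eq_sq_iff_eq_or_eq_neg (a := t / r) (b := 1)).1 (by rw [hlam2]; ring) with h | h
  · left
    intro x
    have := hlam x
    rw [h, one_mul] at this
    exact_mod_cast this
  · right
    intro x
    have := hlam x
    rw [h] at this
    have h2 : (a (g • x) : ℚ) = -(a x : ℚ) := by linarith
    exact_mod_cast h2

end

theorem gen : S_rankGen := by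
  classical
  intro h4 h5 G X _ _ _ _ c hS D ε hε hX a hodd hcl hrel
  have hn : ∀ (x : X) (g h : G), nf D ε (g • x) h = nf D ε x (h * g) := fun x g h =>
    nf_smul D ε g x h
  have hc : ∀ x : X, nf D ε (c • x) = - nf D ε x := fun x => nf_c hS hε x
  by_cases ha : a = 0
  · exact Or.inl ha
  right
  have hne := n_ne hn hc hS.trans hodd hcl ha
  have h6 : 6 ≤ (univ.image (nf (X := X) D ε)).card := by
    by_contra h
    exact ha (few hn hc hS.trans hodd hcl hrel (by omega))
  have hinj : Function.Injective (nf (X := X) D ε) := by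
    by_contra hni
    unfold Function.Injective at hni
    push Not at hni
    obtain ⟨x0, y0, h1, h2⟩ := hni
    have h3 : 2 * (univ.image (nf (X := X) D ε)).card ≤ (univ : Finset X).card := by
      apply mul_card_image_le_card
      intro f hf
      obtain ⟨x, -, rfl⟩ := mem_image.1 hf
      obtain ⟨g, rfl⟩ := hS.trans x0 x
      have hsub : ({g • x0, g • y0} : Finset X) ⊆
          univ.filter (fun x => nf D ε x = nf D ε (g • x0)) := by
        intro y hy
        rw [mem_insert, mem_singleton] at hy
        rw [mem_filter]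
        refine ⟨mem_univ _, ?_⟩
        rcases hy with rfl | rfl
        · rfl
        · funext h
          rw [hn, hn, h1]
      have h4 : ({g • x0, g • y0} : Finset X).card = 2 := by
        apply card_pair
        intro h
        exact h2 (MulAction.injective g h)
      rw [← h4]
      exact card_le_card hsub
    rw [card_univ] at h3
    omega
  refine ⟨hinj, ?_⟩
  have hcardI : (univ.image (nf (X := X) D ε)).card = Fintype.card X := by
    rw [card_image_of_injective _ hinj, card_univ]
  have heven : Even (Fintype.card X) := by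
    have h1 : ((Fintype.card X : ℕ) : ZMod 2) = 0 := by
      have : ∑ _x : X, (1 : ZMod 2) = 0 := by
        apply sum_involution (fun x _ => c • x)
        · intro x _
          decide
        · intro x _ _
          exact hS.ne x
        · intro x _
          rw [smul_smul, hS.sq, one_smul]
        · intro x _
          exact mem_univ _
      simpa using this
    rwa [ZMod.natCast_eq_zero_iff, ← even_iff_two_dvd] at h1
  have hdim := dim_two hn hc hS.trans hne (by omega)
  have hcases : Fintype.card X = 6 ∨ Fintype.card X = 8 ∨ Fintype.card X = 10 := by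
    obtain ⟨k, hk⟩ := heven
    omega
  rcases hcases with h | h | h
  · exact core hS hε hn hc hodd hrel ha (by omega)
  · have h7 := h4 G X c hS D ε hε h hinj
    have h8 : Module.finrank ℚ (VV (nf (X := X) D ε)) ≠ 2 := h7
    exact core hS hε hn hc hodd hrel ha (by omega)
  · exact h5 G X c hS (fun x => nf D ε x) hn hc h hinj a hodd hrel ha

end Pool.Agent.W29.TA
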